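import Pool.Agent.Q33.Dif.Cpt

/-!
Every order preserving smooth diffeomorphism of the real line is a product of three reversible
elements of the group of all order preserving smooth diffeomorphisms of the line.
-/

set_option autoImplicit false

namespace Pool.Agent.Results.MP_608a10_al.ThreeReversibles

open scoped ContDiff

/-- The group, under composition, of the order preserving `C^∞` diffeomorphisms of `ℝ`:
permutations `f` of `ℝ` which are strictly increasing and such that `f` and its inverse are
infinitely often differentiable. -/
def DiffeoPlus : Subgroup (Equiv.Perm ℝ) where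
  carrier := {f | ContDiff ℝ ∞ f ∧ ContDiff ℝ ∞ f.symm ∧ StrictMono f}
  mul_mem' := Q33.Dif.DiffeoPlus.mul_mem'
  one_mem' := Q33.Dif.DiffeoPlus.one_mem'
  inv_mem' := Q33.Dif.DiffeoPlus.inv_mem'

/-- `g` is reversible in the group: it is conjugate to its inverse inside the group. -/
def Reversible (g : DiffeoPlus) : Prop := ∃ h : DiffeoPlus, h * g * h⁻¹ = g⁻¹

/-- Every element is a product of three reversible elements. -/
theorem result (f : DiffeoPlus) :
    ∃ g₁ g₂ g₃ : DiffeoPlus, Reversible g₁ ∧ Reversible g₂ ∧ Reversible g₃ ∧
      f = g₁ * g₂ * g₃ :=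
  Q33.Dif.three f

end Pool.Agent.Results.MP_608a10_al.ThreeReversibles
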